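import Pool.Agent.H506R2.LB.Upper

/-!
# The order of the `L₁` Bernstein constant of the step hyperbolic cross, in every dimension

`PP S c` is the trigonometric polynomial `∑_{k ∈ S} c k * exp(i (k, x))` on `ℝ^d`, and `nrm F`
is the normalised `L₁` norm `(2π)^{-d} ∫_{[0,2π]^d} ‖F x‖ dx` (file `Pool/Agent/H506R2/LB/TorDefs.lean`);
`ikr r k` is `(ik)^r = |k|^r exp(i r π sign(k) / 2)` for `k ≠ 0`, and `0` for `k = 0`
(file `Pool/Agent/H506R2/LB/Upper.lean`).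
-/

set_option autoImplicit false

namespace Pool.Agent.Results.MP_cebbc5_an.StepCrossOrderAllDimensions

open Finset Pool.Agent.H506R2.LB

/-- the dyadic block `ρ(s)`: `⌊2^{s_j-1}⌋ ≤ |k_j| < 2^{s_j}` for all `j`
(`⌊2^{s-1}⌋ = 2^s / 2` in natural number division) -/
noncomputable def rho {d : ℕ} (s : Fin d → ℕ) : Finset (Fin d → ℤ) :=
  Fintype.piFinset fun j => (Icc (-(2 : ℤ) ^ s j) (2 ^ s j)).filter
    (fun k => 2 ^ s j / 2 ≤ k.natAbs ∧ k.natAbs < 2 ^ s j)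

/-- the step hyperbolic cross `Q_n`: the union of the blocks `ρ(s)`, `s_1 + ... + s_d ≤ n` -/
noncomputable def Q (d n : ℕ) : Finset (Fin d → ℤ) :=
  ((Fintype.piFinset fun _ : Fin d => range (n + 1)).filter (fun s => ∑ j, s j ≤ n)).biUnion rho

/-- membership in `Q_n`, without auxiliary bounds -/
theorem mem_Q {d n : ℕ} (k : Fin d → ℤ) : k ∈ Q d n ↔ ∃ s : Fin d → ℕ, ∑ j, s j ≤ n ∧
    ∀ j, 2 ^ s j / 2 ≤ (k j).natAbs ∧ (k j).natAbs < 2 ^ s j := by
  unfold Q rho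
  simp only [mem_biUnion, mem_filter, Fintype.mem_piFinset, mem_range, mem_Icc]
  constructor
  · rintro ⟨s, ⟨-, h⟩, h'⟩
    exact ⟨s, h, fun j => (h' j).2⟩
  · rintro ⟨s, h, h'⟩
    refine ⟨s, ⟨fun j => ?_, h⟩, fun j => ⟨?_, h' j⟩⟩
    · have := Finset.single_le_sum (f := s) (fun _ _ => Nat.zero_le _) (Finset.mem_univ j)
      omega
    · have h1 := (h' j).2
      have h2 : ((k j).natAbs : ℤ) < 2 ^ s j := by exact_mod_cast h1
      rw [Int.natCast_natAbs] at h2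
      have h3 := abs_le.1 h2.le
      exact h3

theorem prod_le {d n : ℕ} {k : Fin d → ℤ} (hk : k ∈ Q d n) : ∏ s, |k s| ≤ 2 ^ n := by
  obtain ⟨s, h, h'⟩ := (mem_Q k).1 hk
  calc ∏ j, |k j| ≤ ∏ j, (2 : ℤ) ^ s j := by
        refine Finset.prod_le_prod (fun j _ => abs_nonneg _) fun j _ => ?_
        have h1 : ((k j).natAbs : ℤ) < 2 ^ s j := by exact_mod_cast (h' j).2
        rw [Int.natCast_natAbs] at h1
        exact h1.le
    _ = 2 ^ (∑ j, s j) := by rw [Finset.prod_pow_eq_pow_sum]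
    _ ≤ 2 ^ n := pow_le_pow_right₀ (by norm_num) h

/-- ratios `‖f^{(r,…,r)}‖₁ / ‖f‖₁` over the nonzero `f ∈ 𝒯(Q_n)` -/
noncomputable def ratios (d n : ℕ) (r : ℝ) : Set ℝ :=
  {ρ | ∃ c : (Fin d → ℤ) → ℂ, (∃ k ∈ Q d n, c k ≠ 0) ∧
    ρ = nrm (PP (Q d n) (fun k => (∏ s, ikr r (k s)) * c k)) / nrm (PP (Q d n) c)}

/-- `b(n, r, L₁)` in dimension `d` -/
noncomputable def b (d n : ℕ) (r : ℝ) : ℝ := sSup (ratios d n r)

/-- In every dimension `d ≥ 1` and for every `r > 0` the exact order is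
`b(n, r, L₁) ≍ 2^{rn}` (for `n ≥ d`). -/
theorem result (d : ℕ) (hd : 1 ≤ d) (r : ℝ) (hr : 0 < r) :
    ∃ c C : ℝ, 0 < c ∧ 0 < C ∧ ∀ n : ℕ, d ≤ n →
      BddAbove (ratios d n r) ∧ c * (2 : ℝ) ^ (r * n) ≤ b d n r ∧
        b d n r ≤ C * (2 : ℝ) ^ (r * n) := by
  obtain ⟨C, hC, h⟩ := upper' d hd r hr
  refine ⟨(2 : ℝ) ^ (-(r * d)), C, by positivity, hC, ?_⟩
  intro n hn
  have hub : ∀ ρ ∈ ratios d n r, ρ ≤ C * (2 : ℝ) ^ (r * n) := by
    rintro ρ ⟨c, hc, rfl⟩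
    rw [div_le_iff₀ (nrm_pos _ c hc)]
    exact h n (Q d n) c (fun k hk => prod_le hk)
  obtain ⟨s0, -⟩ : ∃ s0 : Fin d, s0 = ⟨0, hd⟩ := ⟨_, rfl⟩
  obtain ⟨k, hkd⟩ : ∃ k : Fin d → ℤ, k = fun s => if s = s0 then 2 ^ (n - d) else 1 := ⟨_, rfl⟩
  have hk : k ∈ Q d n := by
    rw [mem_Q]
    refine ⟨fun s => if s = s0 then n - d + 1 else 1, ?_, fun s => ?_⟩
    · rw [← Finset.add_sum_erase _ _ (Finset.mem_univ s0), if_pos rfl]
      have h1 : ∑ s ∈ (univ : Finset (Fin d)).erase s0, (if s = s0 then n - d + 1 else 1) =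
          d - 1 := by
        rw [Finset.sum_congr rfl fun s hs => if_neg (Finset.ne_of_mem_erase hs)]
        rw [Finset.sum_const, Finset.card_erase_of_mem (Finset.mem_univ s0), Finset.card_univ,
          Fintype.card_fin, smul_eq_mul, mul_one]
      rw [h1]
      omega
    · rw [hkd]
      by_cases hs : s = s0
      · simp only [if_pos hs]
        have h1 : ((2 : ℤ) ^ (n - d)).natAbs = 2 ^ (n - d) := by
          rw [Int.natAbs_pow]; rfl
        rw [h1, pow_succ]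
        have h2 : 0 < 2 ^ (n - d) := by positivity
        omega
      · simp only [if_neg hs]
        norm_num
  have hne : (2 : ℝ) ^ (-(r * d)) * (2 : ℝ) ^ (r * n) ∈ ratios d n r := by
    refine ⟨fun l => if l = k then 1 else 0, ⟨_, hk, by simp⟩, ?_⟩
    rw [← ratio_single (Q d n) k hk (fun k => ∏ s, ikr r (k s))]
    have hn1 : ∀ l : ℤ, l ≠ 0 → ‖ikr r l‖ = |(l : ℝ)| ^ r := by
      intro l hl
      unfold ikr
      rw [if_neg hl, norm_mul, Complex.norm_real, Real.norm_of_nonneg (by positivity)]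
      have : Complex.I * (r * Real.pi * ((l.sign : ℤ) : ℝ) / 2) =
          ((r * Real.pi * (l.sign : ℝ) / 2 : ℝ) : ℂ) * Complex.I := by push_cast; ring
      rw [this, Complex.norm_exp_ofReal_mul_I, mul_one]
    rw [norm_prod, ← Finset.mul_prod_erase _ _ (Finset.mem_univ s0)]
    have h1 : ∏ s ∈ (univ : Finset (Fin d)).erase s0, ‖ikr r (k s)‖ = 1 := by
      refine Finset.prod_eq_one fun s hs => ?_
      rw [hkd]
      simp only [if_neg (Finset.ne_of_mem_erase hs)]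
      rw [hn1 1 one_ne_zero]
      simp
    rw [h1, mul_one, hkd]
    simp only [if_true]
    rw [hn1 ((2 : ℤ) ^ (n - d)) (by positivity)]
    have hcast : ((((2 : ℤ) ^ (n - d) : ℤ)) : ℝ) = (2 : ℝ) ^ (((n : ℝ) - d)) := by
      push_cast
      rw [← Real.rpow_natCast]
      congr 1
      rw [Nat.cast_sub hn]
    rw [hcast, abs_of_pos (by positivity : (0 : ℝ) < (2 : ℝ) ^ ((n : ℝ) - d)),
      ← Real.rpow_mul (by norm_num), ← Real.rpow_add (by norm_num)]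
    congr 1
    ring
  exact ⟨⟨_, hub⟩, le_csSup ⟨_, hub⟩ hne, csSup_le ⟨_, hne⟩ hub⟩

end Pool.Agent.Results.MP_cebbc5_an.StepCrossOrderAllDimensions
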